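import Pool.Agent.N630.Tri.Main

/-!
# Trivalent graphs with a given automorphism group: the constant two

Every finite group `G` which is generated by `d = d(G) ≥ 1` elements, but not by fewer, is the automorphism group
of a trivalent graph with `(2 d + 10) |G|` vertices.  Hence `v³(G) < (2 + ε) |G| d(G)` if `d(G)` is large.
-/

set_option autoImplicit false

namespace Pool.Agent.Results.MP_b549f0_co.ConstantTwo

universe u

/-- `X` is trivalent: every vertex has exactly three neighbours. -/
def Trivalent {V : Type*} (X : SimpleGraph V) : Prop := ∀ v, (X.neighborSet v).ncard = 3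

/-- `X` represents `G`: the automorphism group of `X` is isomorphic to `G`. -/
def Represents {V : Type*} (X : SimpleGraph V) (G : Type u) [Group G] : Prop := Nonempty ((X ≃g X) ≃* G)

/-- The numbers of vertices of the finite trivalent graphs that represent `G`. -/
def sizes (G : Type u) [Group G] : Set ℕ :=
  {N | ∃ X : SimpleGraph (Fin N), Trivalent X ∧ Represents X G}

/-- `v³(G)`: the minimum number of vertices of a trivalent graph that represents `G`. -/
noncomputable def v3 (G : Type u) [Group G] : ℕ := sInf (sizes G)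

/-- conjugation with an isomorphism of graphs -/
def conjAut {V V' : Type*} {X : SimpleGraph V} {Y : SimpleGraph V'} (e : X ≃g Y) : (X ≃g X) ≃* (Y ≃g Y) where
  toFun φ := (e.symm.trans φ).trans e
  invFun ψ := (e.trans ψ).trans e.symm
  left_inv φ := by ext v; simp
  right_inv ψ := by ext v; simp
  map_mul' φ ψ := by ext v; simp

theorem mem_sizes (G : Type u) [Group G] [Finite G] (h : 1 ≤ Group.rank G) :
    (2 * Group.rank G + 10) * Nat.card G ∈ sizes G := by
  obtain ⟨k, s, hk, hs, hg⟩ := Pool.Agent.N630.Tri.exists_gens G h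
  have hcard : Nat.card (G × Pool.Agent.N630.Tri.W k) = (2 * Group.rank G + 10) * Nat.card G := by
    rw [Nat.card_prod, Nat.card_sum, Nat.card_prod, ← hk]
    simp only [Nat.card_eq_fintype_card, Fintype.card_fin, Fintype.card_bool]
    ring
  obtain ⟨e⟩ : Nonempty (G × Pool.Agent.N630.Tri.W k ≃ Fin ((2 * Group.rank G + 10) * Nat.card G)) := by
    rw [← hcard]
    exact ⟨Finite.equivFin _⟩
  set E := SimpleGraph.Iso.map e (Pool.Agent.N630.Tri.X s)
  refine ⟨(Pool.Agent.N630.Tri.X s).map e.toEmbedding, fun v => ?_, ?_⟩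
  · have h1 := Pool.Agent.N630.Tri.regular hs (E.symm v)
    rw [← h1]
    exact Nat.card_congr (E.symm.mapNeighborSet v)
  · obtain ⟨f⟩ := Pool.Agent.N630.Tri.aut hs hg
    exact ⟨(conjAut E).symm.trans f⟩

/-- **Q1.** (1) every finite group `G` with `d(G) ≥ 1` is the automorphism group of a trivalent graph with exactly
`(2 d(G) + 10) |G|` vertices; (2) `v³(G) ≤ (2 d(G) + 10) |G|`; (3) for every `ε > 0` all finite groups `G` with
`d(G)` large satisfy `v³(G) < (2 + ε) |G| d(G)`. -/
theorem result :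
    (∀ (G : Type u) [Group G] [Finite G], 1 ≤ Group.rank G →
      ∃ X : SimpleGraph (Fin ((2 * Group.rank G + 10) * Nat.card G)), Trivalent X ∧ Represents X G) ∧
    (∀ (G : Type u) [Group G] [Finite G], 1 ≤ Group.rank G →
      v3 G ∈ sizes G ∧ v3 G ≤ (2 * Group.rank G + 10) * Nat.card G) ∧
    ∀ ε : ℝ, 0 < ε → ∃ D : ℕ, ∀ (G : Type u) [Group G] [Finite G], D < Group.rank G →
      (v3 G : ℝ) < (2 + ε) * (Nat.card G : ℝ) * (Group.rank G : ℝ) := by
  refine ⟨fun G _ _ h => mem_sizes G h, fun G _ _ h => ⟨Nat.sInf_mem ⟨_, mem_sizes G h⟩,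
    Nat.sInf_le (mem_sizes G h)⟩, fun ε hε => ?_⟩
  obtain ⟨D, hD⟩ := exists_nat_gt (10 / ε)
  refine ⟨D, fun G _ _ h => ?_⟩
  have h1 : v3 G ≤ (2 * Group.rank G + 10) * Nat.card G := Nat.sInf_le (mem_sizes G (by omega))
  have h2 : (v3 G : ℝ) ≤ (2 * (Group.rank G : ℝ) + 10) * (Nat.card G : ℝ) := by exact_mod_cast h1
  have h3 : (0 : ℝ) < (Nat.card G : ℝ) := by exact_mod_cast Nat.card_pos
  have h4 : (D : ℝ) < (Group.rank G : ℝ) := by exact_mod_cast h
  have h5 : 10 < ε * (Group.rank G : ℝ) := by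
    rw [div_lt_iff₀ hε] at hD
    nlinarith
  calc (v3 G : ℝ) ≤ (2 * (Group.rank G : ℝ) + 10) * (Nat.card G : ℝ) := h2
    _ < (2 * (Group.rank G : ℝ) + ε * (Group.rank G : ℝ)) * (Nat.card G : ℝ) := by
        exact mul_lt_mul_of_pos_right (by linarith) h3
    _ = (2 + ε) * (Nat.card G : ℝ) * (Group.rank G : ℝ) := by ring

end Pool.Agent.Results.MP_b549f0_co.ConstantTwo
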